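import Mathlib
import Pool.Agent.T9h1.Chord2

/-!
# Chords of a very general cubic hypersurface through the points of fixed hypersurfaces

Fix countably many hypersurfaces `D_1, D_2, …` in the projective space of dimension `n + 1`, for
example all hypersurfaces which are defined over the algebraic numbers (in particular the coordinate
hyperplanes). Let `X = (F = 0)` be a very general cubic hypersurface of dimension `n`, let `M` be a
field which contains `ℂ` and let `x` be a generic point of `X` over `M` such that the degree of `M`
over the function field of `X` is odd: for `M` the field of rational functions of a rational variety,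
this is a dominant rational map of odd degree from this variety to `X`, for example a birational
parametrization.

(1) Let `c` be ANY point of `X ∩ D_i` over `M`. Then the third point in which the line through `x`
and `c` meets `X` is again a generic point such that the degree of `M` over the function field is
odd. So every rational map `c` from a variety to one of the sections `X ∩ D_i` of `X` (these are
divisors of `X`, nothing is assumed about `c`) gives, by composition, a dominant rational map of odd
degree from every one. For `M` the function field of `X` itself: for every rational map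
`c : X ⇢ X ∩ D_i` the rational map `x ↦ ` (third point of the line through `x` and `c(x)`) is a
dominant rational map of odd degree from `X` to itself.

(2) Suppose that `x = t² α + t β + γ` is such a generic point, with `α`, `β`, `γ` over a subfield `L`
of `M` and `t` transcendental over `L` (a family of conics in `X` of odd degree over `X`, with a
rational point; for `L(t)` a field of rational functions, a dominant map of odd degree to `X` which
is quadratic in one parameter). Then no `L`-rational point of the conic lies on one of the
hypersurfaces `D_i`: the points `α` and `u² α + u β + γ`, `u ∈ L`, do not lie on them. For example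
every coordinate `t² α_i + t β_i + γ_i` is an irreducible quadratic polynomial over `L`, and the same
is true for every linear combination of the coordinates with algebraic coefficients.

Idea of the proof. By the theorems of the starting files (projects LI, PD and E3) the line is not
tangent to `X` at `c`, and if the third point is not of odd degree then the point `z = x + τ c` with
an indeterminate `τ` is generic in the projective space and `E = M(τ)` has odd degree over the field
of rational functions of the projective space. Let `k` be a countable algebraically closed field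
over which the hypersurfaces `D_i` are defined, and let `η` be a point over `k` which is not on
`D_i`. As the coefficients of `F` are algebraically independent over `k` one can write
`F = ∑_{j ≠ 1} (x_j - η_j x_1)³ + s³ x_1³ + s⁴ A` with a number `s` which is transcendental over a
field `κ` which contains `k` and the coefficients of `A` and such that `ℂ` is algebraic over `κ(s)`.
In the coordinates `y_j = x_j - η_j x_1`, `y_1 = s x_1` this is a deformation of the Fermat cubic. The
field `E` descends to a function field of one variable, of odd degree over `κ(s)(z)`, and it has a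
place over `s = 0` of odd ramification index and odd residue degree over the Gauss place. The leading
terms of the point `c`, which is on `D_i`, give a nonzero point `b` of the Fermat cubic with
`b_1 = 0` over an odd extension of the field generated by the generic coordinates `z` such that `z`
minus a multiple of `b` is on the Fermat cubic as well or a square becomes a value of a quadratic
form; both are impossible by the theorem of Springer applied to anisotropic diagonal forms.
-/

set_option autoImplicit false

namespace Pool.Agent.Results.MP_2619d0_ag.ChordsThroughFixedHypersurfaces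

open MvPolynomial

/-- `F` is the equation of a smooth cubic hypersurface of dimension `n`: a cubic form in `n + 2`
variables whose partial derivatives have no common zero besides the origin -/
def SmoothCubic {n : ℕ} (F : MvPolynomial (Fin (n + 2)) ℂ) : Prop :=
  F.IsHomogeneous 3 ∧ ∀ z : Fin (n + 2) → ℂ, (∀ i, eval z (pderiv i F) = 0) → z = 0

/-- the exponents of the cubic monomials in `n + 2` variables -/
abbrev CubicExponents (n : ℕ) : Type := {m : Fin (n + 2) →₀ ℕ // m.degree = 3}

/-- the coefficients of a cubic form -/
noncomputable def coeffs {n : ℕ} (F : MvPolynomial (Fin (n + 2)) ℂ) : CubicExponents n → ℂ :=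
  fun m => F.coeff m.1

/-- `x` is a generic point of the hypersurface `F = 0` with coordinates in an extension field `M` of
the complex numbers: `F` vanishes at `x`, and every form vanishing at `x` is divisible by `F` -/
def GenericPoint {n : ℕ} {M : Type} [Field M] [Algebra ℂ M] (F : MvPolynomial (Fin (n + 2)) ℂ)
    (x : Fin (n + 2) → M) : Prop :=
  aeval x F = 0 ∧ ∀ (e : ℕ) (H : MvPolynomial (Fin (n + 2)) ℂ), H.IsHomogeneous e →
    aeval x H = 0 → F ∣ H

/-- the field generated by the ratios of the coordinates of `x`; for a generic point of `X` it is
the function field of `X` -/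
noncomputable def functionField {n : ℕ} {M : Type} [Field M] [Algebra ℂ M] (x : Fin (n + 2) → M) :
    IntermediateField ℂ M :=
  IntermediateField.adjoin ℂ {z | ∃ i j, z = x i / x j}

/-- `x` is a generic point of the hypersurface `F = 0`, and the field `M` has odd degree over the
function field of the hypersurface -/
def OddPoint {n : ℕ} {M : Type} [Field M] [Algebra ℂ M] (F : MvPolynomial (Fin (n + 2)) ℂ)
    (x : Fin (n + 2) → M) : Prop :=
  GenericPoint F x ∧ Odd (Module.finrank (functionField x) M)

/-- the point `c` lies on one of the hypersurfaces `H = 0`, `H ∈ D` -/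
def LiesOn {n : ℕ} {M : Type} [Field M] [Algebra ℂ M] (D : Set (MvPolynomial (Fin (n + 2)) ℂ))
    (c : Fin (n + 2) → M) : Prop :=
  ∃ H ∈ D, aeval c H = 0

/-- Let `D` be a countable set of nonzero forms in `n + 2` variables. There is a countable set of
nonzero polynomials in the coefficients of a cubic form in `n + 2` variables such that for every
smooth cubic hypersurface `X = (F = 0)` of dimension `n` outside their zero sets and every extension
field `M` of the complex numbers the following holds.

(1) Let `x` be a generic point of `X` over `M` such that `M` has odd degree over the function field of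
`X`, and let `c` be a point of `X` over `M` which lies on one of the hypersurfaces `H = 0`, `H ∈ D`.
Then every point `s x + t c`, `s ≠ 0`, of the line through `x` and `c` which lies on `X` is again a
generic point of `X` such that `M` has odd degree over its function field.

(2) Let `L` be a subfield of `M`, `t ∈ M` transcendental over `L`, and `α`, `β`, `γ` vectors over `L`
such that `t² α + t β + γ` is a generic point of `X` of odd degree. Then neither `α` nor a point
`u² α + u β + γ` with `u ∈ L` lies on one of the hypersurfaces `H = 0`, `H ∈ D`. -/
theorem result (n : ℕ) (D : Set (MvPolynomial (Fin (n + 2)) ℂ)) (hD : D.Countable)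
    (hforms : ∀ H ∈ D, H ≠ 0 ∧ ∃ e : ℕ, H.IsHomogeneous e) :
    ∃ Ps : Set (MvPolynomial (CubicExponents n) ℂ), Ps.Countable ∧
      (0 : MvPolynomial (CubicExponents n) ℂ) ∉ Ps ∧
      ∀ F : MvPolynomial (Fin (n + 2)) ℂ, SmoothCubic F →
        (∀ P ∈ Ps, eval (coeffs F) P ≠ 0) →
        ∀ (M : Type) [Field M] [Algebra ℂ M],
        (∀ x c : Fin (n + 2) → M, OddPoint F x → c ≠ 0 → aeval c F = 0 → LiesOn D c →
          ∀ s t : M, s ≠ 0 → aeval (fun i => s * x i + t * c i) F = 0 →
            OddPoint F (fun i => s * x i + t * c i)) ∧
        (∀ (L : IntermediateField ℂ M) (t : M), Transcendental L t →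
          ∀ α β γ : Fin (n + 2) → M, (∀ i, α i ∈ L) → (∀ i, β i ∈ L) → (∀ i, γ i ∈ L) →
            OddPoint F (fun i => t ^ 2 * α i + t * β i + γ i) →
            ¬ LiesOn D α ∧ ∀ u ∈ L, ¬ LiesOn D (fun i => u ^ 2 * α i + u * β i + γ i)) := by
  classical
  -- a countable field of definition, algebraically closed in the complex numbers
  obtain ⟨K, hKc, hK, hDK⟩ : ∃ K : Subfield ℂ, Countable K ∧ (∀ a : ℂ, IsAlgebraic K a → a ∈ K) ∧
      ∀ H ∈ D, ∀ m, coeff m H ∈ K := by
    let S : Set ℂ := ⋃ H ∈ D, Set.range fun m => coeff m H
    have hS : S.Countable := by
      refine hD.biUnion fun H _ => ?_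
      refine (((H.support.finite_toSet).image fun m => coeff m H).union
        (Set.finite_singleton (0 : ℂ))).countable.mono ?_
      rintro _ ⟨m, rfl⟩
      by_cases hm : coeff m H = 0
      · exact Or.inr hm
      · exact Or.inl ⟨m, mem_support_iff.2 hm, rfl⟩
    have hk : Countable (Subfield.closure S) := by
      have h1 := Subfield.cardinalMk_closure_le_max S
      have h2 : Cardinal.mk S ≤ Cardinal.aleph0 := Cardinal.mk_le_aleph0_iff.2 hS.to_subtype
      rw [max_eq_right h2] at h1
      exact Cardinal.mk_le_aleph0_iff.1 h1
    obtain ⟨K, hkK, hKc, hK⟩ := Pool.Agent.T9h1.exists_closure (Subfield.closure S)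
    refine ⟨K, hKc, hK, fun H hH m => hkK (Subfield.subset_closure ?_)⟩
    exact Set.mem_biUnion hH ⟨m, rfl⟩
  have hfin : Finite (CubicExponents n) := Pool.Agent.T9h1.finite_mon (n + 2) 3
  have hc : Countable (MvPolynomial (CubicExponents n) K) := by
    have := Finite.to_countable (α := CubicExponents n)
    rw [← Cardinal.mk_le_aleph0_iff]
    refine MvPolynomial.cardinalMk_le_max.trans ?_
    rw [max_le_iff, max_le_iff]
    exact ⟨⟨Cardinal.mk_le_aleph0, Cardinal.mk_le_aleph0⟩, le_rfl⟩
  refine ⟨(fun P => map K.subtype P) '' {P | P ≠ 0}, (Set.to_countable _).image _, ?_, ?_⟩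
  · rintro ⟨P, hP, h0⟩
    apply hP
    exact (map_injective _ K.subtype.injective) (h0.trans (map_zero _).symm)
  intro F hF hP M _ _
  have hind : AlgebraicIndependent K (coeffs F) := by
    rw [algebraicIndependent_iff]
    intro P hP1
    by_contra hP0
    apply hP _ ⟨P, hP0, rfl⟩
    rw [eval_map]
    exact hP1
  have hconic : ∀ (L : IntermediateField ℂ M) (t : M), Transcendental L t →
      ∀ α β γ : Fin (n + 2) → M, (∀ i, α i ∈ L) → (∀ i, β i ∈ L) → (∀ i, γ i ∈ L) →
        OddPoint F (fun i => t ^ 2 * α i + t * β i + γ i) → ¬ LiesOn D α := by
    rintro L t ht α β γ hα hβ hγ hx ⟨H, hH, hαH⟩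
    obtain ⟨hH0, e, he⟩ := hforms H hH
    obtain ⟨H', hH'⟩ := Pool.Agent.T9h1.exists_lift K K le_rfl H (hDK H hH)
    have hH'0 : H' ≠ 0 := by
      rintro rfl
      exact hH0 (by rw [← hH', map_zero])
    have he' : H'.IsHomogeneous e := by
      rw [← hH'] at he
      exact IsHomogeneous.of_map K.subtype.injective he
    rw [← hH'] at hαH
    exact (Nat.not_even_iff_odd.2 hx.2) (Pool.Agent.T9h1.no_conics_k K hK hF.1 hF.2 hind L t ht
      α β γ hα hβ hγ hx.1 H' e he' hH'0 hαH)
  refine ⟨?_, ?_⟩
  · rintro x c hx hc0 hcF ⟨H, hH, hcH⟩ s t hs hst
    obtain ⟨hH0, e, he⟩ := hforms H hH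
    obtain ⟨H', hH'⟩ := Pool.Agent.T9h1.exists_lift K K le_rfl H (hDK H hH)
    have hH'0 : H' ≠ 0 := by
      rintro rfl
      exact hH0 (by rw [← hH', map_zero])
    have he' : H'.IsHomogeneous e := by
      rw [← hH'] at he
      exact IsHomogeneous.of_map K.subtype.injective he
    rw [← hH'] at hcH
    exact Pool.Agent.T9h1.chord_k K hK hF.1 hF.2 hind x c hx.1 hx.2 hc0 hcF H' e he' hH'0 hcH
      s t hs hst
  · intro L t ht α β γ hα hβ hγ hx
    refine ⟨hconic L t ht α β γ hα hβ hγ hx, fun u hu => ?_⟩
    have htu : t - u ≠ 0 := by
      intro h
      rw [sub_eq_zero.1 h] at ht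
      exact ht (isAlgebraic_algebraMap (⟨u, hu⟩ : L))
    have ht' : Transcendental L (t - u)⁻¹ := by
      intro h
      apply ht
      have h1 := h.inv.add (isAlgebraic_algebraMap (⟨u, hu⟩ : L))
      rw [inv_inv] at h1
      have h2 : t - u + algebraMap L M ⟨u, hu⟩ = t := sub_add_cancel t u
      rwa [h2] at h1
    refine hconic L (t - u)⁻¹ ht' (fun i => u ^ 2 * α i + u * β i + γ i)
      (fun i => 2 * u * α i + β i) α (fun i => ?_) (fun i => ?_) hα ?_
    · exact add_mem (add_mem (mul_mem (pow_mem hu 2) (hα i)) (mul_mem hu (hβ i))) (hγ i)
    · have h2 : (2 : M) ∈ L := ofNat_mem L 2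
      exact add_mem (mul_mem (mul_mem h2 hu) (hα i)) (hβ i)
    · have h1 : (fun i => (t - u)⁻¹ ^ 2 * (u ^ 2 * α i + u * β i + γ i) +
          (t - u)⁻¹ * (2 * u * α i + β i) + α i) =
          fun i => (t - u)⁻¹ ^ 2 * (t ^ 2 * α i + t * β i + γ i) := by
        funext i
        field_simp
        ring
      rw [h1]
      exact Pool.Agent.N122.scale hF.1 _ _ (pow_ne_zero _ (inv_ne_zero htu)) hx.1 hx.2

end Pool.Agent.Results.MP_2619d0_ag.ChordsThroughFixedHypersurfaces
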