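import Mathlib
import Pool.Agent.T9h1.C22
import Pool.Agent.T9h1.Cov4

/-!
# Chords of a very general cubic hypersurface through the points of arbitrary curves

Let `X = (F = 0)` be a very general cubic hypersurface of dimension `n ≥ 3`, let `M` be a field which
contains `ℂ` and let `x` be a generic point of `X` over `M` such that the degree of `M` over the
function field of `X` is odd: for `M` the field of rational functions of a rational variety, this is a
dominant rational map of odd degree from this variety to `X`, for example a birational
parametrization. Let `c` be another point of `X` over `M`, and suppose that `c` is a point of some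
curve in `X` defined over `ℂ` (or a complex point): the ratios of its coordinates generate a field of
transcendence degree at most one over `ℂ`. There is no condition on the degree or the genus of the
curve.

(1) The third point in which the line through `x` and `c` meets `X` is again a generic point such that
the degree of `M` over the function field is odd. So every rational map `c` from a rational variety to
any curve in `X` gives, by composition, again a dominant rational map of odd degree from every one.

(2) Suppose that `x = t² α + t β + γ` is such a generic point, with `α`, `β`, `γ` over a subfield `L`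
of `M` and `t` transcendental over `L` (a family of conics in `X` of odd degree over `X`, with a
rational point; for `L(t)` a field of rational functions, a dominant map of odd degree to `X` which
is quadratic in one parameter). Then no `L`-rational point of the conic is a point of a curve in `X`
defined over `ℂ`: every rational section of the family sweeps out at least a surface.

Idea of the proof. By the theorems of the starting files (projects LI, PD and E3) the line is not
tangent to `X` at `c`, and if the third point is not of odd degree then the point `z = x + τ c` with
an indeterminate `τ` is generic in the projective space and `M(τ)` has odd degree over the field of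
rational functions of the projective space. The coefficients of `F` are algebraically independent
over a countable field, so `X` specializes to the Fermat cubic; the equations of the images of the
curve in the coordinate planes specialize to nonzero forms and force `c` to specialize to a point `v`
of the Fermat cubic `Y` of transcendence degree at most one, over a field of odd degree over the field
of rational functions of the projective space; the point `z - τ c` becomes a point `y` of `Y` with
`z = y + w v`. It is to be proved that the degree is then even. Let `k` be the field generated by the
ratios of the coordinates of `v`. The projection of `Y` from its point `v` is a quadratic equation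
over the function field of the (rational) projection, and one has to show that its discriminant form
does not become a square on a field of odd degree over `ℂ(z)`. If `v` is a complex point this is a
computation with the discriminant. If `k` is the function field of a curve one considers the cone
over the points of `Y` polar to `v`, as a variety over `k`, and its function field as the field of a
family of conics: all prime divisors which count are principal up to even multiples by the theorem of
Springer on quadratic forms over the residue fields, so the degree of a principal divisor, which is
zero, has the parity of the degree in question, unless this degree is even.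
-/

set_option autoImplicit false

namespace Pool.Agent.Results.MP_2619d0_ag.ChordsThroughPointsOfCurves

open MvPolynomial

/-- `F` is the equation of a smooth cubic hypersurface of dimension `n`: a cubic form in `n + 2`
variables whose partial derivatives have no common zero besides the origin -/
def SmoothCubic {n : ℕ} (F : MvPolynomial (Fin (n + 2)) ℂ) : Prop :=
  F.IsHomogeneous 3 ∧ ∀ z : Fin (n + 2) → ℂ, (∀ i, eval z (pderiv i F) = 0) → z = 0

/-- the exponents of the cubic monomials in `n + 2` variables -/
abbrev CubicExponents (n : ℕ) : Type := {m : Fin (n + 2) →₀ ℕ // m.degree = 3}

/-- the coefficients of a cubic form -/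
noncomputable def coeffs {n : ℕ} (F : MvPolynomial (Fin (n + 2)) ℂ) : CubicExponents n → ℂ :=
  fun m => F.coeff m.1

/-- `x` is a generic point of the hypersurface `F = 0` with coordinates in an extension field `M` of
the complex numbers: `F` vanishes at `x`, and every form vanishing at `x` is divisible by `F` -/
def GenericPoint {n : ℕ} {M : Type} [Field M] [Algebra ℂ M] (F : MvPolynomial (Fin (n + 2)) ℂ)
    (x : Fin (n + 2) → M) : Prop :=
  aeval x F = 0 ∧ ∀ (e : ℕ) (H : MvPolynomial (Fin (n + 2)) ℂ), H.IsHomogeneous e →
    aeval x H = 0 → F ∣ H

/-- the field generated by the ratios of the coordinates of `x`; for a generic point of `X` it is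
the function field of `X` -/
noncomputable def functionField {n : ℕ} {M : Type} [Field M] [Algebra ℂ M] (x : Fin (n + 2) → M) :
    IntermediateField ℂ M :=
  IntermediateField.adjoin ℂ {z | ∃ i j, z = x i / x j}

/-- `x` is a generic point of the hypersurface `F = 0`, and the field `M` has odd degree over the
function field of the hypersurface -/
def OddPoint {n : ℕ} {M : Type} [Field M] [Algebra ℂ M] (F : MvPolynomial (Fin (n + 2)) ℂ)
    (x : Fin (n + 2) → M) : Prop :=
  GenericPoint F x ∧ Odd (Module.finrank (functionField x) M)

/-- the point `c` of the projective space is a complex point or a generic point of a curve defined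
over the complex numbers: the ratios of its coordinates generate a field of transcendence degree at
most one over the complex numbers -/
def OnCurve {n : ℕ} {M : Type} [Field M] [Algebra ℂ M] (c : Fin (n + 2) → M) : Prop :=
  Algebra.trdeg ℂ (functionField c) ≤ 1

/-- Let `n ≥ 3`. There is a countable set of nonzero polynomials in the coefficients of a cubic form
in `n + 2` variables such that for every smooth cubic hypersurface `X = (F = 0)` of dimension `n`
outside their zero sets and every extension field `M` of the complex numbers the following holds.

(1) Let `x` be a generic point of `X` over `M` such that `M` has odd degree over the function field of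
`X`, and let `c` be a point of `X` over `M` the ratios of whose coordinates generate a field of
transcendence degree at most one over `ℂ`. Then every point `s x + t c`, `s ≠ 0`, of the line through
`x` and `c` which lies on `X` is again a generic point of `X` such that `M` has odd degree over its
function field.

(2) Let `L` be a subfield of `M`, `t ∈ M` transcendental over `L`, and `α`, `β`, `γ` vectors over `L`
such that `t² α + t β + γ` is a generic point of `X` of odd degree. Then the ratios of the coordinates
of `α`, and of every point `u² α + u β + γ` with `u ∈ L`, generate a field of transcendence degree at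
least two. -/
theorem result (n : ℕ) (hn : 3 ≤ n) :
    ∃ Ps : Set (MvPolynomial (CubicExponents n) ℂ), Ps.Countable ∧
      (0 : MvPolynomial (CubicExponents n) ℂ) ∉ Ps ∧
      ∀ F : MvPolynomial (Fin (n + 2)) ℂ, SmoothCubic F →
        (∀ P ∈ Ps, eval (coeffs F) P ≠ 0) →
        ∀ (M : Type) [Field M] [Algebra ℂ M],
        (∀ x c : Fin (n + 2) → M, OddPoint F x → c ≠ 0 → aeval c F = 0 → OnCurve c →
          ∀ s t : M, s ≠ 0 → aeval (fun i => s * x i + t * c i) F = 0 →
            OddPoint F (fun i => s * x i + t * c i)) ∧
        (∀ (L : IntermediateField ℂ M) (t : M), Transcendental L t →
          ∀ α β γ : Fin (n + 2) → M, (∀ i, α i ∈ L) → (∀ i, β i ∈ L) → (∀ i, γ i ∈ L) →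
            OddPoint F (fun i => t ^ 2 * α i + t * β i + γ i) →
            ¬ OnCurve α ∧ ∀ u ∈ L, ¬ OnCurve (fun i => u ^ 2 * α i + u * β i + γ i)) := by
  classical
  obtain ⟨k, rfl⟩ : ∃ k, n = k + 3 := ⟨n - 3, by omega⟩
  obtain ⟨K, hKc, -, -⟩ := Pool.Agent.T9h1.exists_coef_field
    (∅ : Set (MvPolynomial (Fin 1) ℂ)) Set.countable_empty
    (∅ : Set (MvPolynomial (Fin 1) ℂ)) Set.countable_empty
  have hfin : Finite (CubicExponents (k + 3)) := Pool.Agent.T9h1.finite_mon (k + 3 + 2) 3
  have hc : Countable (MvPolynomial (CubicExponents (k + 3)) K) := by
    have := Finite.to_countable (α := CubicExponents (k + 3))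
    rw [← Cardinal.mk_le_aleph0_iff]
    refine MvPolynomial.cardinalMk_le_max.trans ?_
    rw [max_le_iff, max_le_iff]
    exact ⟨⟨Cardinal.mk_le_aleph0, Cardinal.mk_le_aleph0⟩, le_rfl⟩
  refine ⟨(fun P => map K.subtype P) '' {P | P ≠ 0}, (Set.to_countable _).image _, ?_, ?_⟩
  · rintro ⟨P, hP, h0⟩
    apply hP
    exact (map_injective _ K.subtype.injective) (h0.trans (map_zero _).symm)
  intro F hF hP M _ _
  have hind : AlgebraicIndependent K (coeffs F) := by
    rw [algebraicIndependent_iff]
    intro P hP1
    by_contra hP0
    apply hP _ ⟨P, hP0, rfl⟩
    rw [eval_map]
    exact hP1
  have hconic : ∀ (L : IntermediateField ℂ M) (t : M), Transcendental L t →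
      ∀ α β γ : Fin (k + 3 + 2) → M, (∀ i, α i ∈ L) → (∀ i, β i ∈ L) → (∀ i, γ i ∈ L) →
        OddPoint F (fun i => t ^ 2 * α i + t * β i + γ i) → ¬ OnCurve α := by
    intro L t ht α β γ hα hβ hγ hx hs
    apply Nat.not_even_iff_odd.2 hx.2
    exact Pool.Agent.T9h1.no_conics_curve K hF.1 hF.2 hind L t ht α β γ hα hβ hγ hx.1 hs
  refine ⟨?_, ?_⟩
  · intro x c hx hc0 hcF hs' s t hs hst
    exact Pool.Agent.T9h1.chord_curve K hF.1 hF.2 hind x c hx.1 hx.2 hc0 hcF hs' s t hs hst
  · intro L t ht α β γ hα hβ hγ hx
    refine ⟨hconic L t ht α β γ hα hβ hγ hx, fun u hu => ?_⟩
    have htu : t - u ≠ 0 := by
      intro h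
      rw [sub_eq_zero.1 h] at ht
      exact ht (isAlgebraic_algebraMap (⟨u, hu⟩ : L))
    have ht' : Transcendental L (t - u)⁻¹ := by
      intro h
      apply ht
      have h1 := h.inv.add (isAlgebraic_algebraMap (⟨u, hu⟩ : L))
      rw [inv_inv] at h1
      have h2 : t - u + algebraMap L M ⟨u, hu⟩ = t := sub_add_cancel t u
      rwa [h2] at h1
    refine hconic L (t - u)⁻¹ ht' (fun i => u ^ 2 * α i + u * β i + γ i)
      (fun i => 2 * u * α i + β i) α (fun i => ?_) (fun i => ?_) hα ?_
    · exact add_mem (add_mem (mul_mem (pow_mem hu 2) (hα i)) (mul_mem hu (hβ i))) (hγ i)
    · have h2 : (2 : M) ∈ L := ofNat_mem L 2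
      exact add_mem (mul_mem (mul_mem h2 hu) (hα i)) (hβ i)
    · have h1 : (fun i => (t - u)⁻¹ ^ 2 * (u ^ 2 * α i + u * β i + γ i) +
          (t - u)⁻¹ * (2 * u * α i + β i) + α i) =
          fun i => (t - u)⁻¹ ^ 2 * (t ^ 2 * α i + t * β i + γ i) := by
        funext i
        field_simp
        ring
      rw [h1]
      exact Pool.Agent.N122.scale hF.1 _ _ (pow_ne_zero _ (inv_ne_zero htu)) hx.1 hx.2

end Pool.Agent.Results.MP_2619d0_ag.ChordsThroughPointsOfCurves
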