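import Mathlib
import Pool.Agent.T9h1.Cov4

/-!
# Chords of a very general cubic hypersurface through parabolic points, and through the points with
# a special tangent hyperplane or polar quadric

Let `X = (F = 0)` be a very general cubic hypersurface of dimension `n`, let `M` be a field which
contains `ℂ` and let `x` be a generic point of `X` over `M` such that the degree of `M` over the
function field of `X` is odd: for `M` the field of rational functions of a rational variety, this is a
dominant rational map of odd degree from this variety to `X`, for example a birational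
parametrization. Call a point `c` of `X` over `M` special if

* it is a point of the Hessian hypersurface `det (∂²F/∂X_i∂X_j) = 0`, the locus of the parabolic
  points (the points at which the Gauss map of `X` ramifies); or
* its tangent hyperplane is a point of a hypersurface in the dual projective space which is taken
  from a countable set `D` of hypersurfaces, chosen before `X` (for example: the tangent
  hyperplane at `c` passes through a fixed point, or is tangent to a fixed hypersurface, or cuts a
  fixed linear subspace in a linear space tangent to a fixed hypersurface of this subspace); or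
* its polar quadric, a quadric of the projective space, is a point of a hypersurface in the space of
  all quadrics which is taken from a countable set `D'` chosen before `X`, whose elements do not
  contain all diagonal quadrics (for example: the polar quadric of `c` is tangent to a fixed linear
  subspace).

(1) Let `c` be ANY special point of `X` over `M`. Then the third point in which the line through `x`
and `c` meets `X` is again a generic point such that the degree of `M` over the function field is odd.

(2) Suppose that `x = t² α + t β + γ` is such a generic point, with `α`, `β`, `γ` over a subfield `L`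
of `M` and `t` transcendental over `L` (a family of conics in `X` of odd degree over `X`, with a
rational point; for `L(t)` a field of rational functions, a dominant map of odd degree to `X` which
is quadratic in one parameter). Then no `L`-rational point of the conic is special.

Idea of the proof. By the theorems of the starting files (projects LI, PD and E3) the line is not
tangent to `X` at `c`, and if the third point is not of odd degree then the point `z = x + τ c` with
an indeterminate `τ` is generic in the projective space and `M(τ)` has odd degree over the field of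
rational functions of the projective space. As the coefficients of `F` are algebraically independent
over a countable field one can write `F = ∑ s^(3 w_i) x_i³ + s^N A` with weights `w_i = m^i` for a
large integer `m`, with a very large integer `N` and with a number `s` which is transcendental over
a field of definition `κ` of `A`. In the coordinates `y_i = s^(w_i) x_i` this is a
deformation of the Fermat cubic, the gradient of `F` is `(3 s^(w_i) y_i²)` and the Hessian matrix is
the diagonal matrix `(6 s^(2 w_i) y_i)`, up to terms of high order. So the different monomials of a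
form in the components of the gradient, or of a form in the entries of the Hessian matrix, have
different orders, and its leading term is one monomial in `y`. Hence the special point `c`
specializes to a point of the Fermat cubic with a coordinate equal to zero. As in my project on
chords through the points of fixed hypersurfaces this is impossible by the theorem of Springer on
quadratic forms. The same leading terms and the lemma of Gauss show that not all points of `X` are
special.
-/

set_option autoImplicit false

namespace Pool.Agent.Results.MP_2619d0_ag.ParabolicPointsAndDualSections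

open MvPolynomial

/-- `F` is the equation of a smooth cubic hypersurface of dimension `n`: a cubic form in `n + 2`
variables whose partial derivatives have no common zero besides the origin -/
def SmoothCubic {n : ℕ} (F : MvPolynomial (Fin (n + 2)) ℂ) : Prop :=
  F.IsHomogeneous 3 ∧ ∀ z : Fin (n + 2) → ℂ, (∀ i, eval z (pderiv i F) = 0) → z = 0

/-- the exponents of the cubic monomials in `n + 2` variables -/
abbrev CubicExponents (n : ℕ) : Type := {m : Fin (n + 2) →₀ ℕ // m.degree = 3}

/-- the coefficients of a cubic form -/
noncomputable def coeffs {n : ℕ} (F : MvPolynomial (Fin (n + 2)) ℂ) : CubicExponents n → ℂ :=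
  fun m => F.coeff m.1

/-- `x` is a generic point of the hypersurface `F = 0` with coordinates in an extension field `M` of
the complex numbers: `F` vanishes at `x`, and every form vanishing at `x` is divisible by `F` -/
def GenericPoint {n : ℕ} {M : Type} [Field M] [Algebra ℂ M] (F : MvPolynomial (Fin (n + 2)) ℂ)
    (x : Fin (n + 2) → M) : Prop :=
  aeval x F = 0 ∧ ∀ (e : ℕ) (H : MvPolynomial (Fin (n + 2)) ℂ), H.IsHomogeneous e →
    aeval x H = 0 → F ∣ H

/-- the field generated by the ratios of the coordinates of `x`; for a generic point of `X` it is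
the function field of `X` -/
noncomputable def functionField {n : ℕ} {M : Type} [Field M] [Algebra ℂ M] (x : Fin (n + 2) → M) :
    IntermediateField ℂ M :=
  IntermediateField.adjoin ℂ {z | ∃ i j, z = x i / x j}

/-- `x` is a generic point of the hypersurface `F = 0`, and the field `M` has odd degree over the
function field of the hypersurface -/
def OddPoint {n : ℕ} {M : Type} [Field M] [Algebra ℂ M] (F : MvPolynomial (Fin (n + 2)) ℂ)
    (x : Fin (n + 2) → M) : Prop :=
  GenericPoint F x ∧ Odd (Module.finrank (functionField x) M)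

/-- the gradient of `F` at the point `c`: for a point of the hypersurface `F = 0`, the coordinates
of its tangent hyperplane -/
noncomputable def gradient {n : ℕ} (F : MvPolynomial (Fin (n + 2)) ℂ) {M : Type} [Field M]
    [Algebra ℂ M] (c : Fin (n + 2) → M) : Fin (n + 2) → M :=
  fun i => aeval c (pderiv i F)

/-- the Hessian matrix of `F` at the point `c`, the matrix of the polar quadric of `c` -/
noncomputable def hessian {n : ℕ} (F : MvPolynomial (Fin (n + 2)) ℂ) {M : Type} [Field M]
    [Algebra ℂ M] (c : Fin (n + 2) → M) : Matrix (Fin (n + 2)) (Fin (n + 2)) M :=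
  Matrix.of fun i j => aeval c (pderiv i (pderiv j F))

/-- the point `c` is special: it is on the Hessian hypersurface, or a form of the set `D` vanishes at
its tangent hyperplane, or a form of the set `D'` vanishes at (the matrix of) its polar quadric -/
def Special {n : ℕ} (D : Set (MvPolynomial (Fin (n + 2)) ℂ))
    (D' : Set (MvPolynomial (Fin (n + 2) × Fin (n + 2)) ℂ)) (F : MvPolynomial (Fin (n + 2)) ℂ)
    {M : Type} [Field M] [Algebra ℂ M] (c : Fin (n + 2) → M) : Prop :=
  (hessian F c).det = 0 ∨ (∃ Ψ ∈ D, aeval (gradient F c) Ψ = 0) ∨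
    ∃ Θ ∈ D', aeval (fun p : Fin (n + 2) × Fin (n + 2) => hessian F c p.1 p.2) Θ = 0

/-- Let `D` be a countable set of nonzero forms in `n + 2` variables and `D'` a countable set of forms
in the entries of an `(n + 2) × (n + 2)` matrix each of which is nonzero at some diagonal matrix.
There is a countable set of nonzero polynomials in the coefficients of a cubic form in `n + 2`
variables such that for every smooth cubic hypersurface `X = (F = 0)` of dimension `n` outside their
zero sets and every extension field `M` of the complex numbers the following holds.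

(1) Let `x` be a generic point of `X` over `M` such that `M` has odd degree over the function field of
`X`, and let `c` be a special point of `X` over `M`. Then every point `s x + t c`, `s ≠ 0`, of the line
through `x` and `c` which lies on `X` is again a generic point of `X` such that `M` has odd degree
over its function field.

(2) Let `L` be a subfield of `M`, `t ∈ M` transcendental over `L`, and `α`, `β`, `γ` vectors over `L`
such that `t² α + t β + γ` is a generic point of `X` of odd degree. Then neither `α` nor a point
`u² α + u β + γ` with `u ∈ L` is special.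

(3) The generic points of `X` are not special. -/
theorem result (n : ℕ) (D : Set (MvPolynomial (Fin (n + 2)) ℂ)) (hD : D.Countable)
    (hforms : ∀ Ψ ∈ D, Ψ ≠ 0 ∧ ∃ e : ℕ, Ψ.IsHomogeneous e)
    (D' : Set (MvPolynomial (Fin (n + 2) × Fin (n + 2)) ℂ)) (hD' : D'.Countable)
    (hforms' : ∀ Θ ∈ D', (∃ e : ℕ, Θ.IsHomogeneous e) ∧
      ∃ t : Fin (n + 2) → ℂ, eval (fun p => if p.1 = p.2 then t p.1 else 0) Θ ≠ 0) :
    ∃ Ps : Set (MvPolynomial (CubicExponents n) ℂ), Ps.Countable ∧
      (0 : MvPolynomial (CubicExponents n) ℂ) ∉ Ps ∧
      ∀ F : MvPolynomial (Fin (n + 2)) ℂ, SmoothCubic F →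
        (∀ P ∈ Ps, eval (coeffs F) P ≠ 0) →
        ∀ (M : Type) [Field M] [Algebra ℂ M],
        (∀ x c : Fin (n + 2) → M, OddPoint F x → c ≠ 0 → aeval c F = 0 → Special D D' F c →
          ∀ s t : M, s ≠ 0 → aeval (fun i => s * x i + t * c i) F = 0 →
            OddPoint F (fun i => s * x i + t * c i)) ∧
        (∀ (L : IntermediateField ℂ M) (t : M), Transcendental L t →
          ∀ α β γ : Fin (n + 2) → M, (∀ i, α i ∈ L) → (∀ i, β i ∈ L) → (∀ i, γ i ∈ L) →
            OddPoint F (fun i => t ^ 2 * α i + t * β i + γ i) →
            ¬ Special D D' F α ∧ ∀ u ∈ L, ¬ Special D D' F (fun i => u ^ 2 * α i + u * β i + γ i)) ∧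
        (∀ c : Fin (n + 2) → M, GenericPoint F c → ¬ Special D D' F c) := by
  classical
  obtain ⟨K, hKc, hK1, hK2⟩ := Pool.Agent.T9h1.exists_coef_field D hD
    (insert (Pool.Agent.T9h1.detForm (n + 2)) D') (hD'.insert _)
  have hfin : Finite (CubicExponents n) := Pool.Agent.T9h1.finite_mon (n + 2) 3
  have hc : Countable (MvPolynomial (CubicExponents n) K) := by
    have := Finite.to_countable (α := CubicExponents n)
    rw [← Cardinal.mk_le_aleph0_iff]
    refine MvPolynomial.cardinalMk_le_max.trans ?_
    rw [max_le_iff, max_le_iff]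
    exact ⟨⟨Cardinal.mk_le_aleph0, Cardinal.mk_le_aleph0⟩, le_rfl⟩
  refine ⟨(fun P => map K.subtype P) '' {P | P ≠ 0}, (Set.to_countable _).image _, ?_, ?_⟩
  · rintro ⟨P, hP, h0⟩
    apply hP
    exact (map_injective _ K.subtype.injective) (h0.trans (map_zero _).symm)
  intro F hF hP M _ _
  have hind : AlgebraicIndependent K (coeffs F) := by
    rw [algebraicIndependent_iff]
    intro P hP1
    by_contra hP0
    apply hP _ ⟨P, hP0, rfl⟩
    rw [eval_map]
    exact hP1
  have hdet : ∃ t : Fin (n + 2) → ℂ, eval (fun p : Fin (n + 2) × Fin (n + 2) =>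
      if p.1 = p.2 then t p.1 else 0) (Pool.Agent.T9h1.detForm (n + 2)) ≠ 0 := by
    refine ⟨fun _ => 1, ?_⟩
    have h1 := Pool.Agent.T9h1.aeval_detForm (R := ℂ) (n + 2)
      (fun p : Fin (n + 2) × Fin (n + 2) => if p.1 = p.2 then 1 else 0)
    have h0 : ∀ f : Fin (n + 2) × Fin (n + 2) → ℂ, eval f (Pool.Agent.T9h1.detForm (n + 2)) =
        aeval f (Pool.Agent.T9h1.detForm (n + 2)) := by
      intro f
      rw [aeval_def, Algebra.algebraMap_self]
      rfl
    rw [h0, h1]
    have h2 : (Matrix.of fun i j : Fin (n + 2) => (if i = j then (1 : ℂ) else 0)) = 1 := by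
      ext i j
      rw [Matrix.of_apply, Matrix.one_apply]
    rw [h2, Matrix.det_one]
    exact one_ne_zero
  -- special points, restated
  have hsp : ∀ (E : Type) [Field E] [Algebra ℂ E] (c : Fin (n + 2) → E), Special D D' F c →
      (∃ (P : MvPolynomial (Fin (n + 2)) K) (d : ℕ), P.IsHomogeneous d ∧ P ≠ 0 ∧
        aeval c (eval₂ (C.comp K.subtype) (fun j => pderiv j F) P) = 0) ∨
      (∃ (P : MvPolynomial (Fin (n + 2) × Fin (n + 2)) K) (d : ℕ), P.IsHomogeneous d ∧
        (∃ t : Fin (n + 2) → ℂ, eval (fun p : Fin (n + 2) × Fin (n + 2) =>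
          if p.1 = p.2 then t p.1 else 0) (map K.subtype P) ≠ 0) ∧
        aeval c (eval₂ (C.comp K.subtype) (fun j : Fin (n + 2) × Fin (n + 2) =>
          pderiv j.1 (pderiv j.2 F)) P) = 0) := by
    intro E _ _ c hs
    have hsec : ∀ Θ ∈ insert (Pool.Agent.T9h1.detForm (n + 2)) D', (∃ e : ℕ, Θ.IsHomogeneous e) →
        (∃ t : Fin (n + 2) → ℂ, eval (fun p : Fin (n + 2) × Fin (n + 2) =>
          if p.1 = p.2 then t p.1 else 0) Θ ≠ 0) →
        aeval (fun p : Fin (n + 2) × Fin (n + 2) => hessian F c p.1 p.2) Θ = 0 →
        ∃ (P : MvPolynomial (Fin (n + 2) × Fin (n + 2)) K) (d : ℕ), P.IsHomogeneous d ∧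
        (∃ t : Fin (n + 2) → ℂ, eval (fun p : Fin (n + 2) × Fin (n + 2) =>
          if p.1 = p.2 then t p.1 else 0) (map K.subtype P) ≠ 0) ∧
        aeval c (eval₂ (C.comp K.subtype) (fun j : Fin (n + 2) × Fin (n + 2) =>
          pderiv j.1 (pderiv j.2 F)) P) = 0 := by
      rintro Θ hΘ ⟨e, he⟩ ht h0
      obtain ⟨P, hP⟩ := Pool.Agent.T9h1.exists_lift' K Θ (hK2 Θ hΘ)
      rw [← hP] at he ht h0
      refine ⟨P, e, IsHomogeneous.of_map K.subtype.injective he, ht, ?_⟩
      rw [Pool.Agent.T9h1.aeval_cov]
      exact h0
    rcases hs with h | ⟨Ψ, hΨ, h⟩ | ⟨Θ, hΘ, h⟩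
    · right
      refine hsec _ (Set.mem_insert _ _) ⟨_, Pool.Agent.T9h1.detForm_hom (n + 2)⟩ hdet ?_
      rw [Pool.Agent.T9h1.aeval_detForm]
      exact h
    · left
      obtain ⟨hΨ0, e, he⟩ := hforms Ψ hΨ
      obtain ⟨P, hP⟩ := Pool.Agent.T9h1.exists_lift' K Ψ (hK1 Ψ hΨ)
      rw [← hP] at he hΨ0 h
      refine ⟨P, e, IsHomogeneous.of_map K.subtype.injective he, ?_, ?_⟩
      · rintro rfl
        exact hΨ0 (map_zero _)
      · rw [Pool.Agent.T9h1.aeval_cov]
        exact h
    · right
      exact hsec Θ (Set.mem_insert_of_mem _ hΘ) (hforms' Θ hΘ).1 (hforms' Θ hΘ).2 h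
  have hg1 : ∀ j, (pderiv j F).IsHomogeneous 2 := fun j => hF.1.pderiv
  have hg2 : ∀ j : Fin (n + 2) × Fin (n + 2), (pderiv j.1 (pderiv j.2 F)).IsHomogeneous 1 :=
    fun j => hF.1.pderiv.pderiv
  have hconic : ∀ (L : IntermediateField ℂ M) (t : M), Transcendental L t →
      ∀ α β γ : Fin (n + 2) → M, (∀ i, α i ∈ L) → (∀ i, β i ∈ L) → (∀ i, γ i ∈ L) →
        OddPoint F (fun i => t ^ 2 * α i + t * β i + γ i) → ¬ Special D D' F α := by
    intro L t ht α β γ hα hβ hγ hx hs
    apply Nat.not_even_iff_odd.2 hx.2
    rcases hsp M α hs with ⟨P, d, hPh, hP0, h0⟩ | ⟨P, d, hPh, ⟨t', ht'⟩, h0⟩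
    · exact Pool.Agent.T9h1.no_conics_cov K hF.1 hF.2 hind 2 (by norm_num) (by norm_num)
        (fun j => pderiv j F) hg1 _ _ (Pool.Agent.T9h1.cv_grad F) P d hPh
        (Pool.Agent.T9h1.ne_grad K P hP0) L t ht α β γ hα hβ hγ hx.1 h0
    · exact Pool.Agent.T9h1.no_conics_cov K hF.1 hF.2 hind 1 (by norm_num) (by norm_num)
        (fun j : Fin (n + 2) × Fin (n + 2) => pderiv j.1 (pderiv j.2 F)) hg2 _ _
        (Pool.Agent.T9h1.cv_hess F) P d hPh
        (Pool.Agent.T9h1.ne_hess K P t' ht') L t ht α β γ hα hβ hγ hx.1 h0
  refine ⟨?_, ?_, ?_⟩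
  · intro x c hx hc0 hcF hs' s t hs hst
    rcases hsp M c hs' with ⟨P, d, hPh, hP0, h0⟩ | ⟨P, d, hPh, ⟨t', ht'⟩, h0⟩
    · exact Pool.Agent.T9h1.chord_cov K hF.1 hF.2 hind 2 (by norm_num) (by norm_num)
        (fun j => pderiv j F) hg1 _ _ (Pool.Agent.T9h1.cv_grad F) P d hPh
        (Pool.Agent.T9h1.ne_grad K P hP0) x c hx.1 hx.2 hc0 hcF h0 s t hs hst
    · exact Pool.Agent.T9h1.chord_cov K hF.1 hF.2 hind 1 (by norm_num) (by norm_num)
        (fun j : Fin (n + 2) × Fin (n + 2) => pderiv j.1 (pderiv j.2 F)) hg2 _ _
        (Pool.Agent.T9h1.cv_hess F) P d hPh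
        (Pool.Agent.T9h1.ne_hess K P t' ht') x c hx.1 hx.2 hc0 hcF h0 s t hs hst
  · intro L t ht α β γ hα hβ hγ hx
    refine ⟨hconic L t ht α β γ hα hβ hγ hx, fun u hu => ?_⟩
    have htu : t - u ≠ 0 := by
      intro h
      rw [sub_eq_zero.1 h] at ht
      exact ht (isAlgebraic_algebraMap (⟨u, hu⟩ : L))
    have ht' : Transcendental L (t - u)⁻¹ := by
      intro h
      apply ht
      have h1 := h.inv.add (isAlgebraic_algebraMap (⟨u, hu⟩ : L))
      rw [inv_inv] at h1
      have h2 : t - u + algebraMap L M ⟨u, hu⟩ = t := sub_add_cancel t u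
      rwa [h2] at h1
    refine hconic L (t - u)⁻¹ ht' (fun i => u ^ 2 * α i + u * β i + γ i)
      (fun i => 2 * u * α i + β i) α (fun i => ?_) (fun i => ?_) hα ?_
    · exact add_mem (add_mem (mul_mem (pow_mem hu 2) (hα i)) (mul_mem hu (hβ i))) (hγ i)
    · have h2 : (2 : M) ∈ L := ofNat_mem L 2
      exact add_mem (mul_mem (mul_mem h2 hu) (hα i)) (hβ i)
    · have h1 : (fun i => (t - u)⁻¹ ^ 2 * (u ^ 2 * α i + u * β i + γ i) +
          (t - u)⁻¹ * (2 * u * α i + β i) + α i) =
          fun i => (t - u)⁻¹ ^ 2 * (t ^ 2 * α i + t * β i + γ i) := by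
        funext i
        field_simp
        ring
      rw [h1]
      exact Pool.Agent.N122.scale hF.1 _ _ (pow_ne_zero _ (inv_ne_zero htu)) hx.1 hx.2
  · intro c hc hs
    rcases hsp M c hs with ⟨P, d, hPh, hP0, h0⟩ | ⟨P, d, hPh, ⟨t', ht'⟩, h0⟩
    · exact Pool.Agent.T9h1.nd_cov K F hF.1 hind 2 (by norm_num) (by norm_num)
        (fun j => pderiv j F) _ _ (Pool.Agent.T9h1.cv_grad F) P d hPh
        (Pool.Agent.T9h1.ne_grad K P hP0)
        (hc.2 _ _ (Pool.Agent.T9h1.hom_cov K _ 2 hg1 P d hPh) h0)
    · exact Pool.Agent.T9h1.nd_cov K F hF.1 hind 1 (by norm_num) (by norm_num)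
        (fun j : Fin (n + 2) × Fin (n + 2) => pderiv j.1 (pderiv j.2 F)) _ _
        (Pool.Agent.T9h1.cv_hess F) P d hPh
        (Pool.Agent.T9h1.ne_hess K P t' ht')
        (hc.2 _ _ (Pool.Agent.T9h1.hom_cov K _ 1 hg2 P d hPh) h0)

end Pool.Agent.Results.MP_2619d0_ag.ParabolicPointsAndDualSections
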