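import Mathlib
import Pool.Agent.T9h1.Quad2

/-!
# Chords of a very general cubic hypersurface through the points of its rational quadric sections

Let `K` be a countable field of complex numbers, for example the field of all algebraic numbers, and
let `X = (F = 0)` be a very general cubic hypersurface of dimension `n`. Let `K(F)` be the field
generated by `K` and the coefficients of `F`, a field of definition of `X`. The hyperplanes and
quadrics of the projective space which are defined over `K(F)` are not fixed: they depend on `X`.
Examples are the polar quadric of a point over `K`, which cuts out the ramification divisor of the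
projection of `X` from this point, the polar hyperplane of two points over `K`, and all hyperplanes
and quadrics whose coefficients are given by rational functions of the coefficients of `F`.

Let `M` be a field which contains `ℂ` and let `x` be a generic point of `X` over `M` such that the
degree of `M` over the function field of `X` is odd: for `M` the field of rational functions of a
rational variety, this is a dominant rational map of odd degree from this variety to `X`, for example
a birational parametrization.

(1) Let `c` be ANY point of `X` over `M` which lies on a hyperplane or quadric `H` defined over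
`K(F)`. Then the third point in which the line through `x` and `c` meets `X` is again a generic point
such that the degree of `M` over the function field is odd. In particular, for every rational map `c`
from `X` to the section of `X` by `H` the map `x ↦` (third point of the line through `x` and `c(x)`)
is a dominant rational map of odd degree from `X` to itself.

(2) Suppose that `x = t² α + t β + γ` is such a generic point, with `α`, `β`, `γ` over a subfield `L`
of `M` and `t` transcendental over `L` (a family of conics in `X` of odd degree over `X`, with a
rational point; for `L(t)` a field of rational functions, a dominant map of odd degree to `X` which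
is quadratic in one parameter). Then no `L`-rational point of the conic lies on a hyperplane or
quadric which is defined over `K(F)`.

Idea of the proof. By the theorems of the starting files (projects LI, PD and E3) the line is not
tangent to `X` at `c`, and if the third point is not of odd degree then the point `z = x + τ c` with
an indeterminate `τ` is generic in the projective space and `M(τ)` has odd degree over the field of
rational functions of the projective space. As the coefficients of `F` are algebraically independent
over `K` one can write `F = ∑ s^(3 w_i) x_i³ + s^N A` with weights `w_i = m^i` for a large integer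
`m`, with `N = 3 m^(n+2)` and with a number `s` which is transcendental over a field `κ` which
contains `K` and the coefficients of `A` and such that `ℂ` is algebraic over `κ(s)`. In the
coordinates `y_i = s^(w_i) x_i` this is a deformation of the Fermat cubic. Every polynomial over `K`
in the coefficients of `F` has an `s`-adic order of the form `3 (∑ n_i m^i)` with small `n_i`. So
the different monomials `y^β` of degree at most two have, in the equation of `H` in the new
coordinates, coefficients of different orders: the exponents `β` of two monomials of equal order
would be congruent modulo three. Hence `H` specializes to a monomial, and the point `c` specializes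
to a point of the Fermat cubic with a coordinate equal to zero. As in my project on chords through
the points of fixed hypersurfaces this is impossible by the theorem of Springer on quadratic forms.
-/

set_option autoImplicit false

namespace Pool.Agent.Results.MP_2619d0_ag.SectionsByRationalQuadrics

open MvPolynomial

/-- `F` is the equation of a smooth cubic hypersurface of dimension `n`: a cubic form in `n + 2`
variables whose partial derivatives have no common zero besides the origin -/
def SmoothCubic {n : ℕ} (F : MvPolynomial (Fin (n + 2)) ℂ) : Prop :=
  F.IsHomogeneous 3 ∧ ∀ z : Fin (n + 2) → ℂ, (∀ i, eval z (pderiv i F) = 0) → z = 0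

/-- the exponents of the cubic monomials in `n + 2` variables -/
abbrev CubicExponents (n : ℕ) : Type := {m : Fin (n + 2) →₀ ℕ // m.degree = 3}

/-- the coefficients of a cubic form -/
noncomputable def coeffs {n : ℕ} (F : MvPolynomial (Fin (n + 2)) ℂ) : CubicExponents n → ℂ :=
  fun m => F.coeff m.1

/-- `x` is a generic point of the hypersurface `F = 0` with coordinates in an extension field `M` of
the complex numbers: `F` vanishes at `x`, and every form vanishing at `x` is divisible by `F` -/
def GenericPoint {n : ℕ} {M : Type} [Field M] [Algebra ℂ M] (F : MvPolynomial (Fin (n + 2)) ℂ)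
    (x : Fin (n + 2) → M) : Prop :=
  aeval x F = 0 ∧ ∀ (e : ℕ) (H : MvPolynomial (Fin (n + 2)) ℂ), H.IsHomogeneous e →
    aeval x H = 0 → F ∣ H

/-- the field generated by the ratios of the coordinates of `x`; for a generic point of `X` it is
the function field of `X` -/
noncomputable def functionField {n : ℕ} {M : Type} [Field M] [Algebra ℂ M] (x : Fin (n + 2) → M) :
    IntermediateField ℂ M :=
  IntermediateField.adjoin ℂ {z | ∃ i j, z = x i / x j}

/-- `x` is a generic point of the hypersurface `F = 0`, and the field `M` has odd degree over the
function field of the hypersurface -/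
def OddPoint {n : ℕ} {M : Type} [Field M] [Algebra ℂ M] (F : MvPolynomial (Fin (n + 2)) ℂ)
    (x : Fin (n + 2) → M) : Prop :=
  GenericPoint F x ∧ Odd (Module.finrank (functionField x) M)

/-- the field `K(F)` generated by `K` and the coefficients of the cubic form `F` -/
noncomputable def definitionField {n : ℕ} (K : Subfield ℂ) (F : MvPolynomial (Fin (n + 2)) ℂ) : Subfield ℂ :=
  Subfield.closure ((K : Set ℂ) ∪ Set.range (coeffs F))

/-- the point `c` lies on a hyperplane or a quadric `H = 0` which is defined over `K(F)` -/
def LiesOnRationalQuadric {n : ℕ} (K : Subfield ℂ) (F : MvPolynomial (Fin (n + 2)) ℂ) {M : Type}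
    [Field M] [Algebra ℂ M] (c : Fin (n + 2) → M) : Prop :=
  ∃ H : MvPolynomial (Fin (n + 2)) ℂ, H ≠ 0 ∧ (H.IsHomogeneous 1 ∨ H.IsHomogeneous 2) ∧
    (∀ m, coeff m H ∈ definitionField K F) ∧ aeval c H = 0

/-- Let `K` be a countable subfield of the complex numbers. There is a countable set of nonzero
polynomials in the coefficients of a cubic form in `n + 2` variables such that for every smooth cubic
hypersurface `X = (F = 0)` of dimension `n` outside their zero sets and every extension field `M` of
the complex numbers the following holds.

(1) Let `x` be a generic point of `X` over `M` such that `M` has odd degree over the function field of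
`X`, and let `c` be a point of `X` over `M` which lies on a hyperplane or a quadric defined over
`K(F)`. Then every point `s x + t c`, `s ≠ 0`, of the line through `x` and `c` which lies on `X` is
again a generic point of `X` such that `M` has odd degree over its function field.

(2) Let `L` be a subfield of `M`, `t ∈ M` transcendental over `L`, and `α`, `β`, `γ` vectors over `L`
such that `t² α + t β + γ` is a generic point of `X` of odd degree. Then neither `α` nor a point
`u² α + u β + γ` with `u ∈ L` lies on a hyperplane or a quadric defined over `K(F)`. -/
theorem result (n : ℕ) (K : Subfield ℂ) (hK : (K : Set ℂ).Countable) :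
    ∃ Ps : Set (MvPolynomial (CubicExponents n) ℂ), Ps.Countable ∧
      (0 : MvPolynomial (CubicExponents n) ℂ) ∉ Ps ∧
      ∀ F : MvPolynomial (Fin (n + 2)) ℂ, SmoothCubic F →
        (∀ P ∈ Ps, eval (coeffs F) P ≠ 0) →
        ∀ (M : Type) [Field M] [Algebra ℂ M],
        (∀ x c : Fin (n + 2) → M, OddPoint F x → c ≠ 0 → aeval c F = 0 →
          LiesOnRationalQuadric K F c →
          ∀ s t : M, s ≠ 0 → aeval (fun i => s * x i + t * c i) F = 0 →
            OddPoint F (fun i => s * x i + t * c i)) ∧
        (∀ (L : IntermediateField ℂ M) (t : M), Transcendental L t →
          ∀ α β γ : Fin (n + 2) → M, (∀ i, α i ∈ L) → (∀ i, β i ∈ L) → (∀ i, γ i ∈ L) →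
            OddPoint F (fun i => t ^ 2 * α i + t * β i + γ i) →
            ¬ LiesOnRationalQuadric K F α ∧
              ∀ u ∈ L, ¬ LiesOnRationalQuadric K F (fun i => u ^ 2 * α i + u * β i + γ i)) := by
  classical
  have hKc : Countable K := hK.to_subtype
  have hfin : Finite (CubicExponents n) := Pool.Agent.T9h1.finite_mon (n + 2) 3
  have hc : Countable (MvPolynomial (CubicExponents n) K) := by
    have := Finite.to_countable (α := CubicExponents n)
    rw [← Cardinal.mk_le_aleph0_iff]
    refine MvPolynomial.cardinalMk_le_max.trans ?_
    rw [max_le_iff, max_le_iff]
    exact ⟨⟨Cardinal.mk_le_aleph0, Cardinal.mk_le_aleph0⟩, le_rfl⟩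
  refine ⟨(fun P => map K.subtype P) '' {P | P ≠ 0}, (Set.to_countable _).image _, ?_, ?_⟩
  · rintro ⟨P, hP, h0⟩
    apply hP
    exact (map_injective _ K.subtype.injective) (h0.trans (map_zero _).symm)
  intro F hF hP M _ _
  have hind : AlgebraicIndependent K (coeffs F) := by
    rw [algebraicIndependent_iff]
    intro P hP1
    by_contra hP0
    apply hP _ ⟨P, hP0, rfl⟩
    rw [eval_map]
    exact hP1
  have hdef : ∀ a ∈ definitionField K F, a ∈ IntermediateField.adjoin K
      (Set.range (Pool.Agent.R845.VG.cf 3 F)) := by
    intro a ha
    have h1 : definitionField K F ≤ (IntermediateField.adjoin K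
        (Set.range (Pool.Agent.R845.VG.cf 3 F))).toSubfield := by
      unfold definitionField
      rw [Subfield.closure_le]
      rintro b (hb | ⟨m, rfl⟩)
      · exact (IntermediateField.adjoin K _).algebraMap_mem ⟨b, hb⟩
      · exact IntermediateField.subset_adjoin K _ ⟨m, rfl⟩
    exact h1 ha
  have hconic : ∀ (L : IntermediateField ℂ M) (t : M), Transcendental L t →
      ∀ α β γ : Fin (n + 2) → M, (∀ i, α i ∈ L) → (∀ i, β i ∈ L) → (∀ i, γ i ∈ L) →
        OddPoint F (fun i => t ^ 2 * α i + t * β i + γ i) → ¬ LiesOnRationalQuadric K F α := by
    rintro L t ht α β γ hα hβ hγ hx ⟨H, hH0, hdeg, hHc, hαH⟩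
    obtain ⟨e, he, hHe⟩ : ∃ e, e ≤ 2 ∧ H.IsHomogeneous e := by
      rcases hdeg with h | h
      · exact ⟨1, by norm_num, h⟩
      · exact ⟨2, le_rfl, h⟩
    exact (Nat.not_even_iff_odd.2 hx.2) (Pool.Agent.T9h1.no_conics_q K hF.1 hF.2 hind L t ht
      α β γ hα hβ hγ hx.1 H e he hHe hH0 (fun m => hdef _ (hHc m)) hαH)
  refine ⟨?_, ?_⟩
  · rintro x c hx hc0 hcF ⟨H, hH0, hdeg, hHc, hcH⟩ s t hs hst
    obtain ⟨e, he, hHe⟩ : ∃ e, e ≤ 2 ∧ H.IsHomogeneous e := by
      rcases hdeg with h | h
      · exact ⟨1, by norm_num, h⟩
      · exact ⟨2, le_rfl, h⟩
    exact Pool.Agent.T9h1.chord_q K hF.1 hF.2 hind x c hx.1 hx.2 hc0 hcF H e he hHe hH0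
      (fun m => hdef _ (hHc m)) hcH s t hs hst
  · intro L t ht α β γ hα hβ hγ hx
    refine ⟨hconic L t ht α β γ hα hβ hγ hx, fun u hu => ?_⟩
    have htu : t - u ≠ 0 := by
      intro h
      rw [sub_eq_zero.1 h] at ht
      exact ht (isAlgebraic_algebraMap (⟨u, hu⟩ : L))
    have ht' : Transcendental L (t - u)⁻¹ := by
      intro h
      apply ht
      have h1 := h.inv.add (isAlgebraic_algebraMap (⟨u, hu⟩ : L))
      rw [inv_inv] at h1
      have h2 : t - u + algebraMap L M ⟨u, hu⟩ = t := sub_add_cancel t u
      rwa [h2] at h1
    refine hconic L (t - u)⁻¹ ht' (fun i => u ^ 2 * α i + u * β i + γ i)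
      (fun i => 2 * u * α i + β i) α (fun i => ?_) (fun i => ?_) hα ?_
    · exact add_mem (add_mem (mul_mem (pow_mem hu 2) (hα i)) (mul_mem hu (hβ i))) (hγ i)
    · have h2 : (2 : M) ∈ L := ofNat_mem L 2
      exact add_mem (mul_mem (mul_mem h2 hu) (hα i)) (hβ i)
    · have h1 : (fun i => (t - u)⁻¹ ^ 2 * (u ^ 2 * α i + u * β i + γ i) +
          (t - u)⁻¹ * (2 * u * α i + β i) + α i) =
          fun i => (t - u)⁻¹ ^ 2 * (t ^ 2 * α i + t * β i + γ i) := by
        funext i
        field_simp
        ring
      rw [h1]
      exact Pool.Agent.N122.scale hF.1 _ _ (pow_ne_zero _ (inv_ne_zero htu)) hx.1 hx.2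

end Pool.Agent.Results.MP_2619d0_ag.SectionsByRationalQuadrics
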